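import Mathlib

/-!
# Root counts of all derivatives do not determine a connected set

For `d = 3` and the compatible triple `τ = ((1,0), (2,0), (1,0))` (so `Q` has exactly one real root,
it is positive, `Q'` has two positive roots and `Q''` has one positive root) the set `R_{4,3}(τ)` is
not connected: along it the value of `Q` at the smaller critical point never vanishes, and it takes
both signs.
-/

set_option autoImplicit false

open Polynomial

namespace Pool.Agent.Results.MP_5207c4_ag.DisconnectedCubics

/-- The monic polynomial `Q_d = x^d + a_{d-1} x^{d-1} + ... + a_0`. -/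
noncomputable def Q {d : ℕ} (a : Fin d → ℝ) : ℝ[X] := X ^ d + ∑ j : Fin d, C (a j) * X ^ (j : ℕ)

/-- `Δ_j`: the set of all `a` for which the derivative `Q_d^{(d-j)}` has a multiple real root. -/
def Delta (d j : ℕ) : Set (Fin d → ℝ) :=
  {a | ∃ x : ℝ, 2 ≤ (derivative^[d - j] (Q a)).rootMultiplicity x}

/-- `R_{4,d}`: the complement of the union of `Δ_1, ..., Δ_d` and of the coordinate hyperplanes
`a_j = 0`. -/
def R4 (d : ℕ) : Set (Fin d → ℝ) :=
  ((⋃ j ∈ Finset.Icc 1 d, Delta d j) ∪ ⋃ j : Fin d, {a | a j = 0})ᶜ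

/-- the number of positive roots (with multiplicity) -/
noncomputable def pos (p : ℝ[X]) : ℕ := (p.roots.filter (fun x => 0 < x)).card

/-- the number of negative roots (with multiplicity) -/
noncomputable def neg (p : ℝ[X]) : ℕ := (p.roots.filter (fun x => x < 0)).card

/-- `R_{4,d}(τ)`: the set of all `a ∈ R_{4,d}` such that for every `l = 0, ..., d - 1` the
derivative `Q_d^{(l)}` has exactly `(τ l).1` positive and `(τ l).2` negative roots. -/
def R4tau {d : ℕ} (τ : Fin d → ℕ × ℕ) : Set (Fin d → ℝ) :=
  {a | a ∈ R4 d ∧ ∀ l : Fin d,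
    pos (derivative^[(l : ℕ)] (Q a)) = (τ l).1 ∧ neg (derivative^[(l : ℕ)] (Q a)) = (τ l).2}

lemma Q3 (a : Fin 3 → ℝ) : Q a = X ^ 3 + C (a 2) * X ^ 2 + C (a 1) * X + C (a 0) := by
  simp [Q, Fin.sum_univ_three]; ring

lemma dQ3 (a : Fin 3 → ℝ) : derivative (Q a) = C 3 * X ^ 2 + C (2 * a 2) * X + C (a 1) := by
  rw [Q3]
  simp only [derivative_add, derivative_mul, derivative_C, derivative_X_pow, derivative_X, map_mul]
  simp
  ring_nf

lemma ddQ3 (a : Fin 3 → ℝ) : derivative (derivative (Q a)) = C 6 * X + C (2 * a 2) := by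
  rw [dQ3]
  simp only [derivative_add, derivative_mul, derivative_C, derivative_X_pow, derivative_X]
  simp
  ring_nf
  simp only [map_ofNat]
  try ring

/-- the smaller critical point -/
noncomputable def crit (a : Fin 3 → ℝ) : ℝ := (-a 2 - Real.sqrt (a 2 ^ 2 - 3 * a 1)) / 3

/-- the value of the polynomial at the smaller critical point -/
noncomputable def val (a : Fin 3 → ℝ) : ℝ :=
  crit a ^ 3 + a 2 * crit a ^ 2 + a 1 * crit a + a 0

lemma continuous_val : Continuous val := by
  unfold val crit
  fun_prop

lemma no_roots {b c : ℝ} (h : b ^ 2 < 4 * c) : (X ^ 2 + C b * X + C c : ℝ[X]).roots = 0 := by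
  rw [Multiset.eq_zero_iff_forall_notMem]
  intro x hx
  have h1 := isRoot_of_mem_roots hx
  simp only [IsRoot.def, eval_add, eval_mul, eval_pow, eval_X, eval_C] at h1
  nlinarith [sq_nonneg (x + b / 2)]

/-- the triple `((1,0), (2,0), (1,0))` -/
def tau : Fin 3 → ℕ × ℕ := ![(1, 0), (2, 0), (1, 0)]

lemma mem_R4tau {e r b c : ℝ} (hr : 0 < r) (he : e < 0) (h : b ^ 2 < 4 * c)
    (hQ : ∀ x : ℝ, x ^ 3 - 15 / 2 * x ^ 2 + 18 * x + e = (x - r) * (x ^ 2 + b * x + c)) :
    (![e, 18, -15 / 2] : Fin 3 → ℝ) ∈ R4tau tau := by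
  set a : Fin 3 → ℝ := ![e, 18, -15 / 2] with ha
  have a0 : a 0 = e := rfl
  have a1 : a 1 = 18 := rfl
  have a2 : a 2 = -15 / 2 := rfl
  have q0 : Q a = (X - C r) * (X ^ 2 + C b * X + C c) := by
    rw [Q3, a0, a1, a2]
    apply Polynomial.funext
    intro x
    have := hQ x
    simp only [eval_add, eval_mul, eval_pow, eval_X, eval_C, eval_sub]
    linarith
  have q1 : derivative (Q a) = C 3 * ((X - C 2) * (X - C 3)) := by
    rw [dQ3, a1, a2]
    apply Polynomial.funext
    intro x
    simp only [eval_add, eval_mul, eval_pow, eval_X, eval_C, eval_sub]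
    ring
  have q2 : derivative (derivative (Q a)) = C 6 * (X - C (5 / 2)) := by
    rw [ddQ3, a2]
    apply Polynomial.funext
    intro x
    simp only [eval_add, eval_mul, eval_X, eval_C, eval_sub]
    ring
  have hne : (X ^ 2 + C b * X + C c : ℝ[X]) ≠ 0 := by
    intro h0
    have := congrArg (fun p => p.coeff 2) h0
    simp at this
  have r0 : (Q a).roots = {r} := by
    rw [q0, roots_mul (mul_ne_zero (X_sub_C_ne_zero r) hne), no_roots h, roots_X_sub_C, add_zero]
  have r1 : (derivative (Q a)).roots = {2, 3} := by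
    rw [q1, roots_C_mul _ (by norm_num),
      roots_mul (mul_ne_zero (X_sub_C_ne_zero 2) (X_sub_C_ne_zero 3)), roots_X_sub_C,
      roots_X_sub_C]
    rfl
  have r2 : (derivative (derivative (Q a))).roots = {5 / 2} := by
    rw [q2, roots_C_mul _ (by norm_num), roots_X_sub_C]
  refine ⟨?_, ?_⟩
  · simp only [R4, Set.mem_compl_iff, Set.mem_union, Set.mem_iUnion, not_or, not_exists]
    refine ⟨?_, ?_⟩
    · intro j hj ⟨x, hx⟩
      rw [Finset.mem_Icc] at hj
      obtain ⟨hj1, hj3⟩ := hj
      rw [← count_roots] at hx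
      interval_cases j
      · simp only [Function.iterate_succ, Function.iterate_zero, Function.comp, id,
          Nat.reduceSub] at hx
        rw [r2] at hx
        have := Multiset.count_le_card x ({5 / 2} : Multiset ℝ)
        simp at this
        omega
      · simp only [Function.iterate_succ, Function.iterate_zero, Function.comp, id,
          Nat.reduceSub] at hx
        rw [r1] at hx
        have hnd : ({2, 3} : Multiset ℝ).Nodup := by
          rw [Multiset.insert_eq_cons, Multiset.nodup_cons]
          constructor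
          · rw [Multiset.mem_singleton]; norm_num
          · exact Multiset.nodup_singleton _
        have := Multiset.nodup_iff_count_le_one.1 hnd x
        omega
      · simp only [Function.iterate_zero, id, Nat.reduceSub] at hx
        rw [r0] at hx
        have := Multiset.count_le_card x ({r} : Multiset ℝ)
        simp at this
        omega
    · intro j hj
      change _ = (0 : ℝ) at hj
      fin_cases j
      · exact he.ne hj
      · change (18 : ℝ) = 0 at hj; norm_num at hj
      · change (-15 / 2 : ℝ) = 0 at hj; norm_num at hj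
  · intro l
    fin_cases l
    · change pos (Q a) = 1 ∧ neg (Q a) = 0
      simp only [pos, neg]
      rw [r0]
      constructor
      · rw [Multiset.filter_singleton, if_pos hr]; rfl
      · rw [Multiset.filter_singleton, if_neg (by linarith)]; rfl
    · change pos (derivative (Q a)) = 2 ∧ neg (derivative (Q a)) = 0
      simp only [pos, neg]
      rw [r1]
      constructor
      · rw [Multiset.filter_eq_self.2]
        · rfl
        · intro x hx
          simp only [Multiset.insert_eq_cons, Multiset.mem_cons, Multiset.mem_singleton] at hx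
          rcases hx with rfl | rfl <;> norm_num
      · rw [Multiset.filter_eq_nil.2]
        · rfl
        · intro x hx
          simp only [Multiset.insert_eq_cons, Multiset.mem_cons, Multiset.mem_singleton] at hx
          rcases hx with rfl | rfl <;> norm_num
    · change pos (derivative (derivative (Q a))) = 1 ∧ neg (derivative (derivative (Q a))) = 0
      simp only [pos, neg]
      rw [r2]
      constructor
      · rw [Multiset.filter_singleton, if_pos (by norm_num)]; rfl
      · rw [Multiset.filter_singleton, if_neg (by norm_num)]; rfl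

lemma val_ne_zero {a : Fin 3 → ℝ} (ha : a ∈ R4tau tau) : val a ≠ 0 := by
  intro h0
  obtain ⟨hR, hτ⟩ := ha
  -- the discriminant of the derivative is nonnegative
  have hpos : pos (derivative (Q a)) = 2 := (hτ 1).1
  have hex : ∃ x, x ∈ (derivative (Q a)).roots := by
    by_contra hcon
    push Not at hcon
    have : (derivative (Q a)).roots = 0 := Multiset.eq_zero_iff_forall_notMem.2 hcon
    simp [pos, this] at hpos
  obtain ⟨x, hx⟩ := hex
  have hx' := isRoot_of_mem_roots hx
  rw [dQ3] at hx'
  simp only [IsRoot.def, eval_add, eval_mul, eval_pow, eval_X, eval_C] at hx'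
  have hdisc : 0 ≤ a 2 ^ 2 - 3 * a 1 := by nlinarith [sq_nonneg (3 * x + a 2)]
  have hs := Real.sq_sqrt hdisc
  have hc : 3 * crit a ^ 2 + 2 * a 2 * crit a + a 1 = 0 := by
    unfold crit
    nlinarith
  have hQ0 : Q a ≠ 0 := by
    intro h
    have := congrArg (fun p => p.coeff 3) h
    rw [Q3] at this
    simp at this
  have h2 : 2 ≤ (Q a).rootMultiplicity (crit a) := by
    have : 1 < (Q a).rootMultiplicity (crit a) := by
      rw [one_lt_rootMultiplicity_iff_isRoot hQ0]
      constructor
      · rw [Q3]
        simp only [IsRoot.def, eval_add, eval_mul, eval_pow, eval_X, eval_C]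
        unfold val at h0
        linarith
      · rw [dQ3]
        simp only [IsRoot.def, eval_add, eval_mul, eval_pow, eval_X, eval_C]
        linarith
    omega
  apply hR
  left
  simp only [Set.mem_iUnion]
  exact ⟨3, by simp, crit a, by simpa using h2⟩

/-- For the compatible triple `τ = ((1,0), (2,0), (1,0))` the set `R_{4,3}(τ)` is non-empty and not
connected. -/
theorem result :
    (R4tau (![(1, 0), (2, 0), (1, 0)] : Fin 3 → ℕ × ℕ)).Nonempty ∧
    ¬ IsConnected (R4tau (![(1, 0), (2, 0), (1, 0)] : Fin 3 → ℕ × ℕ)) := by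
  change (R4tau tau).Nonempty ∧ ¬ IsConnected (R4tau tau)
  have hA : (![-16, 18, -15 / 2] : Fin 3 → ℝ) ∈ R4tau tau :=
    mem_R4tau (r := 4) (b := -7 / 2) (c := 4) (by norm_num) (by norm_num) (by norm_num)
      (fun x => by ring)
  have hB : (![-23 / 2, 18, -15 / 2] : Fin 3 → ℝ) ∈ R4tau tau :=
    mem_R4tau (r := 1) (b := -13 / 2) (c := 23 / 2) (by norm_num) (by norm_num) (by norm_num)
      (fun x => by ring)
  refine ⟨⟨_, hA⟩, fun hcon => ?_⟩
  have hs : Real.sqrt ((-15 / 2) ^ 2 - 3 * 18) = 3 / 2 := by
    rw [show ((-15 / 2 : ℝ) ^ 2 - 3 * 18) = (3 / 2) ^ 2 by norm_num]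
    exact Real.sqrt_sq (by norm_num)
  have hcr : ∀ e : ℝ, crit ![e, 18, -15 / 2] = 2 := by
    intro e
    change (-(-15 / 2 : ℝ) - Real.sqrt ((-15 / 2) ^ 2 - 3 * 18)) / 3 = 2
    rw [hs]; norm_num
  have hval : ∀ e : ℝ, val ![e, 18, -15 / 2] = 14 + e := by
    intro e
    unfold val
    rw [hcr]
    change (2 : ℝ) ^ 3 + (-15 / 2) * 2 ^ 2 + 18 * 2 + e = 14 + e
    ring
  have himg := hcon.isPreconnected.image val continuous_val.continuousOn
  have hmem := himg.Icc_subset (Set.mem_image_of_mem val hA) (Set.mem_image_of_mem val hB)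
  rw [hval, hval] at hmem
  obtain ⟨a, ha, ha0⟩ := hmem (show (0 : ℝ) ∈ Set.Icc (14 + -16) (14 + -23 / 2) by
    constructor <;> norm_num)
  exact val_ne_zero ha ha0

end Pool.Agent.Results.MP_5207c4_ag.DisconnectedCubics
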